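import Pool.Agent.Run7.h51.USMeas

/-!
MP_d136d9_an, Q1, positive answer with a universal constant. For every uniformly separated metric
space `M` (bounded or not) with any base point, and real or complex scalars, the Lipschitz-free
space `F(M)` has the `21`-Schur property and is `21`-weakly sequentially complete.
-/

set_option autoImplicit false

open Pool.Agent.Run7.h51.US

universe u v

namespace Pool.Agent.Results.MP_d136d9_an.QuantWSC

/-- **MP_d136d9_an, Q1 (positive).** -/
theorem result (𝕜 : Type u) [RCLike 𝕜] (M : Type v) [MetricSpace M] (o : M)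
    (hM : UniformlySeparated M) :
    IsWSC 𝕜 (FreeSpace 𝕜 o) 21 ∧ IsSchur 𝕜 (FreeSpace 𝕜 o) 21 :=
  ⟨free_isWSC o hM, free_isSchur o hM⟩

end Pool.Agent.Results.MP_d136d9_an.QuantWSC
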